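import Pool.Agent.K3h88.VR.Stm

/-! Project VR: the numerical inequality behind the alteration argument. -/

set_option autoImplicit false

namespace Pool.Agent.K3h49.VR

open Pool.Agent.K3h88.VR Real

theorem term1 (Q : ℝ) (K : ℕ) (hQ : 1 ≤ Q) (hK : 1 ≤ K) (N : ℕ) (hN : (N : ℝ) = 16 * Q * K)
    (hN1 : 1 ≤ N) :
    2 ^ (3 * (K - 1)) * (1 - 1 / (2 * Q)) ^ (N - 1) * 2 ^ (4 * K) ≤ (1 : ℝ) := by
  have hx0 : 0 < 1 / (2 * Q) := by positivity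
  have hx1 : 1 / (2 * Q) ≤ 1 / 2 := by
    apply one_div_le_one_div_of_le (by norm_num)
    linarith
  set x := 1 / (2 * Q) with hx
  have hxN : x * N = 8 * K := by
    rw [hN, hx]
    field_simp
    ring
  have h1 : (1 - x) ^ N ≤ (1 / 2 : ℝ) ^ (8 * K) := by
    have h2 : 1 - x ≤ exp (-x) := by
      have := add_one_le_exp (-x)
      linarith
    have h3 : (1 - x) ^ N ≤ exp (-x) ^ N := pow_le_pow_left₀ (by linarith) h2 N
    have h4 : exp (-x) ^ N = exp (-1) ^ (8 * K) := by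
      rw [← exp_nat_mul, ← exp_nat_mul]
      congr 1
      push_cast
      linarith
    have h5 : exp (-1) ≤ (1 / 2 : ℝ) := by
      rw [exp_neg, one_div]
      apply inv_anti₀ (by norm_num)
      have := add_one_le_exp (1 : ℝ)
      linarith
    rw [h4] at h3
    exact h3.trans (pow_le_pow_left₀ (exp_pos _).le h5 _)
  have h2 : (1 - x) ^ (N - 1) ≤ 2 * (1 / 2 : ℝ) ^ (8 * K) := by
    have h3 : (1 - x) ^ N = (1 - x) ^ (N - 1) * (1 - x) := by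
      rw [← pow_succ]
      congr 1
      omega
    have h4 : 0 ≤ (1 - x) ^ (N - 1) := pow_nonneg (by linarith) _
    nlinarith
  have h3 : (2 : ℝ) ^ (3 * (K - 1)) ≤ 2 ^ (3 * K) :=
    pow_le_pow_right₀ (by norm_num) (by omega)
  have h4 : (2 : ℝ) ^ (3 * (K - 1)) * (1 - x) ^ (N - 1) * 2 ^ (4 * K) ≤
      2 ^ (3 * K) * (2 * (1 / 2 : ℝ) ^ (8 * K)) * 2 ^ (4 * K) := by
    have h5 : 0 ≤ (1 - x) ^ (N - 1) := pow_nonneg (by linarith) _
    gcongr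
  have h5 : (2 : ℝ) ^ (3 * K) * (2 * (1 / 2 : ℝ) ^ (8 * K)) * 2 ^ (4 * K) =
      2 * (1 / 2) ^ K := by
    have h6 : (2 : ℝ) ^ (3 * K) * 2 ^ (4 * K) * (1 / 2 : ℝ) ^ (8 * K) = (1 / 2) ^ K := by
      rw [pow_mul, pow_mul, pow_mul, ← mul_pow, ← mul_pow]
      norm_num
    rw [← h6]
    ring
  rw [h5] at h4
  refine h4.trans ?_
  have h6 : (1 / 2 : ℝ) ^ K ≤ (1 / 2) ^ 1 := pow_le_pow_of_le_one (by norm_num) (by norm_num) hK
  linarith

theorem term2 (Q : ℝ) (K M : ℕ) (hQ : 1 ≤ Q) (hM : (M : ℝ) * 64 = Q ^ 3 * K) :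
    (M.choose K : ℝ) / Q ^ (3 * K) * 2 ^ (4 * K) ≤ 1 := by
  have h1 : (M.choose K : ℝ) ≤ (M : ℝ) ^ K / (K.factorial : ℝ) := Nat.choose_le_pow_div K M
  have h2 := pow_div_factorial_le_exp (K : ℝ) (by positivity) K
  have h3 : exp (K : ℝ) ≤ 4 ^ K := by
    have h4 : exp (K : ℝ) = exp 1 ^ K := by
      rw [← exp_nat_mul, mul_one]
    rw [h4]
    apply pow_le_pow_left₀ (exp_pos _).le
    have := exp_one_lt_d9
    linarith
  have hQ0 : 0 < Q := by linarith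
  have h4 : (M : ℝ) ^ K / (K.factorial : ℝ) / Q ^ (3 * K) * 2 ^ (4 * K) * 4 ^ K =
      (K : ℝ) ^ K / (K.factorial : ℝ) := by
    have h5 : (M : ℝ) ^ K * 64 ^ K = Q ^ (3 * K) * (K : ℝ) ^ K := by
      rw [← mul_pow, hM, mul_pow, ← pow_mul]
    have h6 : (2 : ℝ) ^ (4 * K) * 4 ^ K = 64 ^ K := by
      rw [pow_mul, ← mul_pow]
      norm_num
    have h7 : (K.factorial : ℝ) ≠ 0 := by positivity
    have h8 : Q ^ (3 * K) ≠ 0 := by positivity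
    rw [mul_assoc, h6, div_div, div_mul_eq_mul_div, h5]
    field_simp
  have h5 : (M.choose K : ℝ) / Q ^ (3 * K) * 2 ^ (4 * K) * 4 ^ K ≤ 4 ^ K := by
    calc (M.choose K : ℝ) / Q ^ (3 * K) * 2 ^ (4 * K) * 4 ^ K
        ≤ (M : ℝ) ^ K / (K.factorial : ℝ) / Q ^ (3 * K) * 2 ^ (4 * K) * 4 ^ K := by gcongr
      _ = (K : ℝ) ^ K / (K.factorial : ℝ) := h4
      _ ≤ _ := h2.trans h3
  have h6 : (0 : ℝ) < 4 ^ K := by positivity
  exact le_of_mul_le_mul_right (by rw [one_mul]; exact h5) h6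

theorem t_NUM1 : S_NUM1 := by
  intro t d ht hd hlt
  obtain ⟨s, rfl⟩ := Nat.exists_eq_add_of_le hd
  have e1 : t + 4 + s - t - 4 = s := by omega
  have e2 : t + 4 + s - t - 2 = s + 2 := by omega
  rw [e2] at hlt
  rw [e1]
  generalize hee : (2 * t - 10) + (t + 4 + s) * ((2 * t - 10) - (t + 4 + s)) = e at hlt ⊢
  have hK : 1 ≤ 2 ^ s := Nat.one_le_two_pow
  rw [Nat.sub_add_cancel hK]
  have hQ : (1 : ℝ) ≤ ((2 ^ t : ℕ) : ℝ) := by exact_mod_cast Nat.one_le_two_pow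
  have h1 := term1 ((2 ^ t : ℕ) : ℝ) (2 ^ s) hQ hK (2 ^ (t + 4 + s)) (by
    push_cast
    rw [pow_add, pow_add]
    ring) Nat.one_le_two_pow
  have h2 := term2 ((2 ^ t : ℕ) : ℝ) (2 ^ s) (2 ^ (t + 4 + s + (2 * t - 10))) hQ (by
    have h3 : 2 ^ (t + 4 + s + (2 * t - 10)) * 64 = (2 ^ t) ^ 3 * 2 ^ s := by
      rw [show (64 : ℕ) = 2 ^ 6 by norm_num, ← pow_add, ← pow_mul, ← pow_add]
      congr 1
      omega
    exact_mod_cast h3)
  set A := (2 : ℝ) ^ (3 * (2 ^ s - 1)) * (1 - 1 / (2 * ((2 ^ t : ℕ) : ℝ))) ^ (2 ^ (t + 4 + s) - 1)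
    with hA
  set B := (((2 ^ (t + 4 + s + (2 * t - 10))).choose (2 ^ s) : ℕ) : ℝ) /
    ((2 ^ t : ℕ) : ℝ) ^ (3 * 2 ^ s) with hB
  have h3 : (2 : ℝ) ^ e * 4 ≤ 2 ^ (4 * 2 ^ s) := by
    rw [show (4 : ℝ) = 2 ^ 2 by norm_num, ← pow_add]
    apply pow_le_pow_right₀ (by norm_num)
    rw [pow_add] at hlt
    omega
  have hA0 : 0 ≤ A := by
    have h5 : 1 / (2 * ((2 ^ t : ℕ) : ℝ)) ≤ 1 := by
      rw [div_le_one (by positivity)]
      linarith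
    apply mul_nonneg (by positivity)
    exact pow_nonneg (by linarith) _
  have hB0 : 0 ≤ B := by positivity
  have h6 : (2 : ℝ) ^ e * 4 * (A + B) ≤ 2 := by
    calc (2 : ℝ) ^ e * 4 * (A + B) ≤ 2 ^ (4 * 2 ^ s) * (A + B) := by gcongr
      _ = A * 2 ^ (4 * 2 ^ s) + B * 2 ^ (4 * 2 ^ s) := by ring
      _ ≤ 1 + 1 := add_le_add h1 h2
      _ = 2 := by norm_num
  nlinarith

end Pool.Agent.K3h49.VR
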