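import Pool.Agent.K3h88.VR.Stm2

/-! Project VR: pigeonhole on the colours, second form. -/

set_option autoImplicit false

namespace Pool.Agent.K3h49.VR

open Pool.Agent.K3h88.VR Filter

theorem t_PIG2 : S_PIG2 := by
  intro R s r hsr hf
  by_contra hcon
  have h : ∀ j, s < j → j ≤ r → ∀ᶠ d : ℕ in atTop,
      (R j d : ℝ) < (R (j - 1) d : ℝ) + (R s d : ℝ) / ((r : ℝ) - s) := by
    intro j h1 h2
    by_contra h3
    apply hcon
    refine ⟨j, h1, h2, ?_⟩
    rw [Filter.not_eventually] at h3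
    exact h3.mono (fun d hd => not_lt.mp hd)
  have key : ∀ r', s + 1 ≤ r' → r' ≤ r → ∀ᶠ d : ℕ in atTop,
      (R r' d : ℝ) < R s d + ((r' : ℝ) - s) * ((R s d : ℝ) / ((r : ℝ) - s)) := by
    intro r' hr'
    induction r', hr' using Nat.le_induction with
    | base =>
      intro h2
      filter_upwards [h (s + 1) (Nat.lt_succ_self s) h2] with d hd
      rw [Nat.add_sub_cancel] at hd
      have e : ((s + 1 : ℕ) : ℝ) - s = 1 := by push_cast; ring
      rw [e, one_mul]
      exact hd
    | succ n hn ih =>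
      intro h2
      filter_upwards [ih (by omega), h (n + 1) (by omega) h2] with d h3 h4
      rw [Nat.add_sub_cancel] at h4
      have e : (((n + 1 : ℕ) : ℝ) - s) * ((R s d : ℝ) / ((r : ℝ) - s)) =
          ((n : ℝ) - s) * ((R s d : ℝ) / ((r : ℝ) - s)) + (R s d : ℝ) / ((r : ℝ) - s) := by
        push_cast
        ring
      rw [e]
      linarith
  have hfin := key r hsr le_rfl
  obtain ⟨d, h1, h2⟩ := (hf.and_eventually hfin).exists
  have h3 : ((r : ℝ) - s) ≠ 0 := sub_ne_zero.mpr (by exact_mod_cast hsr.ne')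
  rw [mul_div_cancel₀ _ h3] at h2
  have h4 : (2 * (R s d : ℝ)) ≤ R r d := by exact_mod_cast h1
  linarith

end Pool.Agent.K3h49.VR
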